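import Pool.Agent.Lib.MP_387a85_ag.IN.ASM
import Pool.Agent.Lib.MP_387a85_ag.IN.SOM
import Pool.Agent.Lib.MP_387a85_ag.IN.NON
import Pool.Agent.Lib.MP_387a85_ag.IN.TOR
import Pool.Agent.Lib.MP_387a85_ag.IN.RNG
import Pool.Agent.Lib.MP_387a85_ag.IN.SUM
import Pool.Agent.Lib.MP_387a85_ag.IN.CHN
import Pool.Agent.Lib.MP_387a85_ag.IN.CRN
import Pool.Agent.Lib.MP_387a85_ag.IN.VTX
import Pool.Agent.Lib.MP_387a85_ag.IN.GEN
import Pool.Agent.Lib.MP_387a85_ag.IN.LIN

/-!
# MP_387a85_ag: curves with few monomials on all blow-ups of the plane

`f` is an irreducible form of degree `d` with at most `t` terms, `loc f k α β` its local equation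
`f (1, α + x, β + y)` at the point `pt k α β` of the plane, `multAt g w` the multiplicity of the
strict transform of `g = 0` at the infinitely near point given by the word `w` of directions. For
any `r` different proper or infinitely near points the sum of the squares of the multiplicities is
at most `d ^ 2 + r (t - 1) ^ 2`.

Proof. A toric infinitely near point over a vertex of the triangle of coordinates keeps the number
of the terms; if `x ^ a` and `y ^ b` occur in the local equation then the sum of the squares over all
toric infinitely near points is at most `a b`, by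
`m ^ 2 + (a - m) (m - i) + i (b - m) ≤ a b`, and the three numbers `a b` add up to `d ^ 2` at most.
At all other points the multiplicity is at most `t - 1`.
-/

set_option autoImplicit false

namespace Pool.Agent.Results.MP_387a85_ag.FewMonomials

open MvPolynomial Pool.Agent.Lib.MP387a85.IN

/-- **Curves with few monomials, infinitely near points.** Let `f` be an irreducible form of degree
`d` in three variables over a field of characteristic `0` with at most `t ≥ 2` terms. Let
`pt (k l) (α l) (β l)`, `l < s`, be different points of the projective plane and `T l` a finite set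
of infinitely near points over the `l`-th one (words of directions, the empty word is the point
itself); `r` is the number of all of them. Then `d ^ 2 - ∑ m ^ 2 ≥ - r (t - 1) ^ 2`, the sum over all
these points, `m` the multiplicities of the strict transforms of the curve `f = 0`. -/
theorem result (K : Type) [Field K] [CharZero K] (t d : ℕ) (ht : 2 ≤ t)
    (f : MvPolynomial (Fin 3) K) (hf : Irreducible f) (hd : f.IsHomogeneous d)
    (hcard : f.support.card ≤ t) (s : ℕ) (k : Fin s → Fin 3) (α β : Fin s → K)
    (hp : ∀ l l', l ≠ l' → ∀ c : K, pt (k l) (α l) (β l) ≠ c • pt (k l') (α l') (β l'))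
    (T : Fin s → Finset (List (Option K))) (r : ℕ) (hr : r = ∑ l, (T l).card) :
    -((r : ℤ) * ((t : ℤ) - 1) ^ 2) ≤
      (d : ℤ) ^ 2 - ∑ l, ∑ w ∈ T l, (multAt (loc f (k l) (α l) (β l)) w : ℤ) ^ 2 := by
  have hTOR := specTOR specSOM specNON
  have hRNG := specRNG specSOM specNON
  have hCHN := specCHN hTOR hRNG
  have hCRN := specCRN (specSUM hTOR) hCHN
  have h := main hCHN hCRN specVTX specGEN specLIN K t d ht f hf hd hcard s k α β hp T
  rw [← hr] at h
  have h' : ((∑ l, ∑ w ∈ T l, multAt (loc f (k l) (α l) (β l)) w ^ 2 : ℕ) : ℤ) ≤
      ((d ^ 2 + r * (t - 1) ^ 2 : ℕ) : ℤ) := by exact_mod_cast h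
  push_cast [Nat.cast_sub (show 1 ≤ t by omega)] at h'
  linarith

end Pool.Agent.Results.MP_387a85_ag.FewMonomials
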