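import Pool.Agent.Lib.MP_387a85_ag.IN.ASM2
import Pool.Agent.Lib.MP_387a85_ag.IN.SOM
import Pool.Agent.Lib.MP_387a85_ag.IN.NON
import Pool.Agent.Lib.MP_387a85_ag.IN.TOR
import Pool.Agent.Lib.MP_387a85_ag.IN.RNG
import Pool.Agent.Lib.MP_387a85_ag.IN.CHN
import Pool.Agent.Lib.MP_387a85_ag.IN.ZR2
import Pool.Agent.Lib.MP_387a85_ag.IN.STR2
import Pool.Agent.Lib.MP_387a85_ag.IN.SM2
import Pool.Agent.Lib.MP_387a85_ag.IN.CH2
import Pool.Agent.Lib.MP_387a85_ag.IN.CR2
import Pool.Agent.Lib.MP_387a85_ag.IN.LK2
import Pool.Agent.Lib.MP_387a85_ag.IN.UA2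
import Pool.Agent.Lib.MP_387a85_ag.IN.UB2
import Pool.Agent.Lib.MP_387a85_ag.IN.GI2

/-!
# MP_387a85_ag: the curves `f(x) = g(y)` on all blow-ups

`f = f₁ / f₂` and `g = g₁ / g₂` are rational functions of degrees `n` and `m`, `curve f₁ f₂ g₁ g₂` is
the polynomial `f₁(x) g₂(y) - f₂(x) g₁(y)` of bidegree `(n, m)`, `locA F a b` is `F (a + x, b + y)`,
`multAt g w` the multiplicity of the strict transform of `g = 0` at the infinitely near point given by
the word `w` of directions.

Proof. At a point `(a, b)` of the curve the local equation is `x ^ A U + y ^ B W` with the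
ramification indices `A`, `B` and units `U`, `W`. The sum of the squares of the multiplicities at the
toric infinitely near points is at most `A B` (the algorithm of Euclid), all others are at most `1`.
A fibre of `f` has the total ramification `n` at most and, by the formula of Riemann and Hurwitz, the
sum of all `A - 1` is at most `2 n - 2`; a counting inequality gives `∑ A B ≤ 2 n m + (s - 2) ^ 2` for
`s` points.
-/

set_option autoImplicit false

namespace Pool.Agent.Results.MP_387a85_ag.SeparatedVariables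

open MvPolynomial Pool.Agent.Lib.MP387a85.IN

/-- **The curves `f(x) = g(y)`, infinitely near points.** Let `f = f₁ / f₂`, `g = g₁ / g₂` be rational
functions of degrees `n`, `m ≥ 1` over a field of characteristic `0`, let `(a l, b l)`, `l < s`, be
different points and `T l` a finite set of infinitely near points over the `l`-th one (words of
directions, the empty word is the point itself); `r` is the number of all of them. Then
`2 n m - ∑ m ^ 2 ≥ - (r + (s - 2) ^ 2)`, the sum over all these points, `m` the multiplicities of the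
strict transforms of the curve `f(x) = g(y)`. -/
theorem result (K : Type) [Field K] [CharZero K] (f₁ f₂ g₁ g₂ : Polynomial K)
    (hf : IsCoprime f₁ f₂) (hg : IsCoprime g₁ g₂) (n m : ℕ)
    (hn : n = max f₁.natDegree f₂.natDegree) (hm : m = max g₁.natDegree g₂.natDegree)
    (hn1 : 1 ≤ n) (hm1 : 1 ≤ m) (s : ℕ) (a b : Fin s → K)
    (hp : ∀ l l', l ≠ l' → a l ≠ a l' ∨ b l ≠ b l')
    (T : Fin s → Finset (List (Option K))) (r : ℕ) (hr : r = ∑ l, (T l).card) :
    -((r : ℤ) + ((s : ℤ) - 2) ^ 2) ≤ 2 * (n : ℤ) * m -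
      ∑ l, ∑ w ∈ T l, (multAt (locA (curve f₁ f₂ g₁ g₂) (a l) (b l)) w : ℤ) ^ 2 := by
  have hCHN := specCHN (specTOR specSOM specNON) (specRNG specSOM specNON)
  exact main2 specZR2 (specCR2 (specSM2 specZR2 specSTR2) (specCH2 hCHN specZR2 specSTR2)) specLK2
    specUA2 specUB2 specGI2 K f₁ f₂ g₁ g₂ hf hg n m hn hm hn1 hm1 s a b hp T r hr

end Pool.Agent.Results.MP_387a85_ag.SeparatedVariables
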