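import Pool.Agent.Lib.MP_387a85_ag.TR.WRO
import Pool.Agent.Lib.MP_387a85_ag.TR.RED
import Pool.Agent.Lib.MP_387a85_ag.TR.KEY
import Pool.Agent.Lib.MP_387a85_ag.TR.AFF
import Pool.Agent.Lib.MP_387a85_ag.TR.DEG
import Pool.Agent.Lib.MP_387a85_ag.TR.DEX
import Pool.Agent.Lib.MP_387a85_ag.TR.LOD
import Pool.Agent.Lib.MP_387a85_ag.TR.COF
import Pool.Agent.Lib.MP_387a85_ag.TR.INF
import Pool.Agent.Lib.MP_387a85_ag.TR.SCL
import Pool.Agent.Lib.MP_387a85_ag.TR.LIN
import Pool.Agent.Lib.MP_387a85_ag.TR.AFX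
import Pool.Agent.Lib.MP_387a85_ag.TR.DGX
import Pool.Agent.Lib.MP_387a85_ag.TR.DEC
import Pool.Agent.Lib.MP_387a85_ag.TR.CMR
import Pool.Agent.Lib.MP_387a85_ag.TR.BRG
import Pool.Agent.Lib.MP_387a85_ag.TR.ASX
import Pool.Agent.Lib.MP_387a85_ag.TR.EXX
import Pool.Agent.Lib.MP_387a85_ag.TR.SHP

/-!
# Bounded negativity for plane curves of bounded tensor rank

`pt v` is the maximal ideal of the point `v ∈ k³`, `mult F v` the largest `m` with `F ∈ (pt v)^m` (the multiplicity of the plane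
curve `F = 0` at `[v]`), `subst M F` the polynomial `F(M x)`; see `Lib/MP_387a85_ag/TR/Base.lean`.
-/

set_option autoImplicit false

open MvPolynomial Pool.Agent.Lib.MP387a85.TR

/-- (1) For every `r` there is `K` such that for all `t`, every field `k` of characteristic `0`, every irreducible form `F` of degree
`d` whose affine equation in some projective coordinate system (given by the matrix `M`) is `f_1(x) g_1(y) + ⋯ + f_t(x) g_t(y)`, and
all different points `[v_1], …, [v_r]`: `d² - ∑ mult F (v_l)² ≥ -K t²`.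
(2) If the points are the `(a_l, b_l)` in these affine coordinates, `r ≥ 1`, the `a_l` are different and the `b_l` are different, then
`d² - ∑ mult² ≥ -(r - 1) (t - 1)²`; here `F` may be any non-zero form.
(3) For all `r ≥ 1`, `t ≥ 1`, `k` there is equality in (2) for some data. -/
theorem Pool.Agent.Results.MP_387a85_ag.TensorRank.result :
    (∀ r : ℕ, ∃ K : ℕ, ∀ t : ℕ, ∀ (k : Type) [Field k] [CharZero k] (F : MvPolynomial (Fin 3) k) (d : ℕ),
      F.IsHomogeneous d → Irreducible F →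
      ∀ M : Matrix (Fin 3) (Fin 3) k, M.det ≠ 0 → ∀ f g : Fin t → Polynomial k,
      (∀ x y : k, eval ![x, y, 1] (subst M F) = ∑ j, (f j).eval x * (g j).eval y) →
      ∀ v : Fin r → Fin 3 → k, (∀ l, v l ≠ 0) → (∀ l l', l ≠ l' → ∀ c : k, v l ≠ c • v l') →
      -((K : ℤ) * (t : ℤ) ^ 2) ≤ (d : ℤ) ^ 2 - ∑ l, (mult F (v l) : ℤ) ^ 2) ∧
    (∀ (r t : ℕ), 1 ≤ r → ∀ (k : Type) [Field k] [CharZero k] (F : MvPolynomial (Fin 3) k) (d : ℕ),
      F.IsHomogeneous d → F ≠ 0 →
      ∀ M : Matrix (Fin 3) (Fin 3) k, M.det ≠ 0 → ∀ f g : Fin t → Polynomial k,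
      (∀ x y : k, eval ![x, y, 1] (subst M F) = ∑ j, (f j).eval x * (g j).eval y) →
      ∀ a b : Fin r → k, Function.Injective a → Function.Injective b →
      -(((r : ℤ) - 1) * ((t : ℤ) - 1) ^ 2) ≤
        (d : ℤ) ^ 2 - ∑ l, (mult F (M.mulVec ![a l, b l, 1]) : ℤ) ^ 2) ∧
    ∀ (r t : ℕ), 1 ≤ r → 1 ≤ t → ∀ (k : Type) [Field k] [CharZero k],
      ∃ (F : MvPolynomial (Fin 3) k) (d : ℕ) (M : Matrix (Fin 3) (Fin 3) k)
        (f g : Fin t → Polynomial k) (a b : Fin r → k),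
        F.IsHomogeneous d ∧ F ≠ 0 ∧ M.det ≠ 0 ∧
        (∀ x y : k, eval ![x, y, 1] (subst M F) = ∑ j, (f j).eval x * (g j).eval y) ∧
        Function.Injective a ∧ Function.Injective b ∧
        (d : ℤ) ^ 2 - ∑ l, (mult F (M.mulVec ![a l, b l, 1]) : ℤ) ^ 2 =
          -(((r : ℤ) - 1) * ((t : ℤ) - 1) ^ 2) := by
  refine ⟨fun r => mainX specWRO specRED (specAFF specKEY) (specDEG specKEY) specDEX specLOD specCOF
    (specINF specCOF) specSCL specLIN (specBRG (specCMR specDEC)) r, ?_, ?_⟩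
  · intro r t hr k _ _ F d hd hF M hM f g hR a b ha hb
    exact main2X specWRO specRED (specAFX specKEY) (specDGX specKEY) specCOF specSCL r t hr k F d hd
      hF M hM f g hR a b ha hb
  · intro r t hr ht k _ _
    exact sharp specSCL r t k hr ht
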